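import Pool.Agent.H2.VDeep5

/-!
# Simultaneous quadratic twists of rank zero in characteristic two

Let `K = k(X)` with `k` a finite field of characteristic two. Every non-isotrivial elliptic curve over
`K` has an equation `y² + x y = x³ + a₀ x² + b` with `b` not constant, and its twist by the extension
generated by a root of `z² + z = a` is `y² + x y = x³ + (a₀ + a) x² + b`. We fix `a₀` and a finite set
`B` of nonconstant functions `b`, and order the quadratic extensions of `K` by the degree of their
conductor. The extensions more ramified than `a₀` and `B` at the places where `a₀` or some `b ∈ B` is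
bad form a positive proportion of all of them. For more than `28.8 %` of them the twists of all the
curves with `b ∈ B`, whatever their number, simultaneously have a finite group of rational points and,
up to a Frobenius isogeny, all their `2ˢ`-Selmer groups killed by two. This even holds for the infinitely
many functions `b` which are less ramified than the extension.
-/

namespace Pool.Agent.Results.MP_ae0bd0_nt.AllTwistsCharTwo

open Polynomial IsDedekindDomain Pool.Agent.H2

theorem result {k : Type} [Field k] [Finite k] [CharP k 2] (a₀ : RatFunc k)
    (B : Finset (RatFunc k)) (hB : ∀ b ∈ B, ∀ c : k, b ≠ RatFunc.C c) :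
    (∀ a : RatFunc k, ∃! M : ℕ, ∃ a' ∈ asClass a, HalfCond a' M) ∧
    ∃ C M₀ : ℕ, ∀ M, M₀ ≤ M →
      (asClass '' {a : RatFunc k | HalfCond a M}).Finite ∧
      (asClass '' {a : RatFunc k | HalfCond a M}).ncard ≤
        C * (asClass '' {a : RatFunc k | HalfCond a M ∧ MoreRamified a₀ B a}).ncard ∧
      (asClass '' {a : RatFunc k | HalfCond a M ∧ MoreRamified a₀ B a}).Nonempty ∧
      288 * (asClass '' {a : RatFunc k | HalfCond a M ∧ MoreRamified a₀ B a}).ncard ≤
        1000 * (asClass '' {a : RatFunc k | HalfCond a M ∧ MoreRamified a₀ B a ∧
          ∀ b, (∀ c : k, b ≠ RatFunc.C c) → (b ∈ B ∨ Adm (a₀ + a) b) →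
            GoodCurve (a₀ + a) b M}).ncard :=
  ⟨halfCond_unique, more_prop a₀ B hB⟩

end Pool.Agent.Results.MP_ae0bd0_nt.AllTwistsCharTwo
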