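import Pool.Agent.H3.MQ.CntQ
import Pool.Agent.H3.MQ.AB
import Pool.Agent.H3.MQ.C
import Pool.Agent.H3.MQ.R15
import Pool.Agent.H3.MQ.T

/-!
# The rank conjecture over one fifth of all quadratic fields, and over abelian fields

Let `E : y² = x³ - 91 x - 330` be the curve of conductor `17` (no complex multiplication, no rational
isogeny of odd degree), and `E_d : y² = x³ - 91 d² x - 330 d³` its quadratic twists.

Theorem 1. For exactly the proportion `c / 2 = 0.2097...` of all quadratic fields `F`, real and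
imaginary, ordered by the absolute value of the discriminant, the rank of `E(F)` and the order of
`L(E/F, s)` at `s = 1` are zero. Here `c = ∏_{i ≥ 0} (1 - 2^{-(2i+1)}) = 0.419...`. The fields
`F = ℚ(√m)` are given by an explicit criterion: the kernel of a matrix of Kronecker symbols over `F₂` is
trivial, and a condition at `17` and `∞` (for the root number `+ 1`).

Theorem 2. The same for `E_d`, `d` any integer, and the fields `F = ℚ(√m_1, …, √m_k)`, with `m_i` of
both signs, if all the squarefree parts of the numbers `d ∏_{i ∈ T} m_i` satisfy the criterion.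

Theorem 3. Let `d` be squarefree and `F` any abelian number field such that for all the square roots
`√c` in `F` the squarefree part of `c d` satisfies the criterion: then the rank of `E_d(F)` and the
order of `L(E_d/F, s)` at `s = 1` are both even, so that the rank conjecture for `E_d/F` holds modulo
two. In particular this is so for exactly one fifth (`c / 2`) of the `d` and ALL the abelian fields
`F` of odd degree.

Theorem 4. For the curves of conductor `15` and the fields `F = ℚ(√M_1, …, √M_k)`, where the squarefree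
numbers `M_i = 1, 49 mod 60` are independent modulo squares, the rank and the order are zero for the
twist by `D` and `F`, for exactly the proportion `c₁ ^ (2 ^ k)` of all squarefree `D = 1, 49 mod 60`,
where `c₁ = ∏_{i ≥ 1} (1 - 2^{-i}) = 0.288...`.

The proofs: two-descent for the twists over `ℚ`; central values (modular symbols, ternary theta
series) and the distribution of the matrices, from modules of earlier runs
(`Pool.Graph.R_pool_sql_team_seeded_63374d34` and `620a6dc7`); the passage to `F`: Artin formalism.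
-/

set_option autoImplicit false

namespace Pool.Agent.Results.MP_ae0bd0_nt.QuadraticFieldsConductor17

open NumberField Finset Filter
open Pool.Agent.N856.MT (Minimal Lser)
open scoped Classical

/-- the curve `y² = x³ + a x + b` over the field `K` -/
def curve (K : Type) [Field K] (a b : ℤ) : WeierstrassCurve K :=
  { a₁ := 0, a₂ := 0, a₃ := 0, a₄ := (a : K), a₆ := (b : K) }

/-- The rank conjecture for `E/K` with both sides zero: `E(K)` is finite; the Euler product `Lser M`
of `E`, formed with minimal models `M` at all primes, has a meromorphic continuation to the plane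
which is analytic and not zero at `1`, and every other analytic continuation to a connected open set
which contains `1` is not zero there. -/
def RankZero {K : Type} [Field K] [NumberField K] (E : WeierstrassCurve K) : Prop :=
  Finite E.toAffine.Point ∧
  ∀ M : {P : Ideal (𝓞 K) // P.IsPrime ∧ P ≠ ⊥} → WeierstrassCurve (𝓞 K), Minimal E M →
    (∃ Λ : ℂ → ℂ, (∀ s, MeromorphicAt Λ s) ∧ AnalyticAt ℂ Λ 1 ∧ Λ 1 ≠ 0 ∧
      ∀ s : ℂ, 3 / 2 < s.re → Λ s = Lser M s) ∧
    ∀ (U : Set ℂ) (f : ℂ → ℂ), IsOpen U → IsConnected U → (1 : ℂ) ∈ U →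
      {s : ℂ | 3 / 2 < s.re} ⊆ U → AnalyticOnNhd ℂ f U →
      (∀ s : ℂ, 3 / 2 < s.re → f s = Lser M s) → f 1 ≠ 0

/-- The rank conjecture for `E/K` modulo two, both numbers being even: the rank of `E(K)` is even; the
Euler product has a meromorphic continuation to the plane which is analytic at `1`, and every analytic
continuation to a connected open set which contains `1` has an even order there. -/
def BothEven {K : Type} [Field K] [NumberField K] (E : WeierstrassCurve K) : Prop :=
  Even (Module.finrank ℤ E.toAffine.Point) ∧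
  ∀ M : {P : Ideal (𝓞 K) // P.IsPrime ∧ P ≠ ⊥} → WeierstrassCurve (𝓞 K), Minimal E M →
    (∃ Λ : ℂ → ℂ, (∀ s, MeromorphicAt Λ s) ∧ AnalyticAt ℂ Λ 1 ∧
      ∀ s : ℂ, 3 / 2 < s.re → Λ s = Lser M s) ∧
    ∀ (U : Set ℂ) (f : ℂ → ℂ), IsOpen U → IsConnected U → (1 : ℂ) ∈ U →
      {s : ℂ | 3 / 2 < s.re} ⊆ U → AnalyticOnNhd ℂ f U →
      (∀ s : ℂ, 3 / 2 < s.re → f s = Lser M s) →
      ∃ k : ℕ, analyticOrderAt f 1 = ((2 * k : ℕ) : ℕ∞)

/-- rank and order are zero for `y² = x³ + a x + b` over the fields `F = ℚ(√m_1, …, √m_k)` (in any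
cyclotomic field which contains the roots) -/
def ZeroOver {k : ℕ} (m : Fin k → ℤ) (a b : ℤ) : Prop :=
  ∀ (n : ℕ) [NeZero n] (L : Type) [Field L] [NumberField L] [IsCyclotomicExtension {n} ℚ L]
    (r : Fin k → L), (∀ i, r i ^ 2 = (m i : L)) →
    RankZero (curve (IntermediateField.adjoin ℚ (Set.range r)) a b)

/-! ### level `17` -/

/-- the condition for the root number `+ 1` of the twist `E_d` over `ℚ` -/
def RootPlus (d : ℤ) : Prop := (0 < d ∧ jacobiSym d 17 = 1) ∨ (d < 0 ∧ jacobiSym d 17 ≠ 1)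

/-- the discriminant of `ℚ(√d)` -/
def disc (d : ℤ) : ℤ := if d % 4 = 1 then d else 4 * d

/-- the prime discriminants: `D` is the product of the `st D p` over the primes `p ∣ D` -/
def st (D : ℤ) (p : ℕ) : ℤ :=
  if p = 2 then (if D % 16 = 12 then -4 else if D % 32 = 8 then 8 else -8)
  else if p % 4 = 1 then p else -p

/-- the Kronecker symbol `(st D q / p)` for `p ≠ q`, written additively -/
def lg (D : ℤ) (q p : ℕ) : ZMod 2 :=
  if p = 2 then (if st D q % 8 = 1 ∨ st D q % 8 = 7 then 0 else 1)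
  else (if jacobiSym (st D q) p = 1 then 0 else 1)

/-- the matrix `R` of the Kronecker symbols, with row sums zero -/
def R (D : ℤ) (p q : ℕ) : ZMod 2 :=
  if p = q then ∑ r ∈ D.natAbs.primeFactors.erase p, lg D r p else lg D q p

/-- the sign of the prime discriminant, written additively -/
def sn (D : ℤ) (q : ℕ) : ZMod 2 := if st D q < 0 then 1 else 0

/-- the Kronecker symbol `(17 / p)`, written additively -/
def nu (p : ℕ) : ZMod 2 := if p = 2 then 0 else if jacobiSym 17 p = 1 then 0 else 1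

/-- the criterion for the discriminant `D`: the symmetric matrix `[[N, R], [Rᵀ, A]]` over `F₂`,
without the row and the column of the first block which belong to `17`, has trivial kernel -/
def Cri (D : ℤ) : Prop := ∀ x y : ℕ → ZMod 2, ((17 : ℤ) ∣ D → x 17 = 0) →
  (∀ p ∈ D.natAbs.primeFactors, p ≠ 17 →
    nu p * x p + ∑ q ∈ D.natAbs.primeFactors, R D p q * y q = 0) →
  (∀ q ∈ D.natAbs.primeFactors,
    ∑ p ∈ D.natAbs.primeFactors, R D p q * x p + sn D q * y q = 0) →
  ∀ p ∈ D.natAbs.primeFactors, x p = 0 ∧ y p = 0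

/-- the criterion for the squarefree integer `d` -/
def Good17 (d : ℤ) : Prop := RootPlus d ∧ Cri (disc d)

/-- the number of the quadratic fields `ℚ(√m)`, `m ≠ 1` squarefree, of absolute discriminant at most
`X` for which `m` has the property `P` -/
noncomputable def numQ (P : ℤ → Prop) (X : ℕ) : ℕ :=
  ((Icc (-(X : ℤ)) X).filter fun m => |disc m| ≤ X ∧ Squarefree m ∧ m ≠ 1 ∧ P m).card

/-- the constant `(1 - 1/2) (1 - 1/8) (1 - 1/32) ⋯` -/
noncomputable def c : ℝ := ∏' i : ℕ, (1 - (1 / 2 : ℝ) ^ (2 * i + 1))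

/-! ### level `15` -/

/-- the class: squarefree, `≡ 1` or `49` modulo `60` -/
def Cls (D : ℕ) : Prop := Squarefree D ∧ (D % 60 = 1 ∨ D % 60 = 49)

/-- the criterion -/
def Good15 (D : ℕ) : Prop := ∀ d : ℕ, d ∣ D →
  (∀ p : ℕ, p.Prime → p ∣ D → ¬ p ∣ d → jacobiSym d p = 1) →
  (∀ p : ℕ, p.Prime → p ∣ d → jacobiSym (-((D / d : ℕ) : ℤ)) p = 1) →
  jacobiSym d 5 = 1 → d = 1

/-- all the squarefree parts `e` of the numbers `D ∏_{i ∈ T} M_i` are good and different from `1` -/
def AllGood {k : ℕ} (M : Fin k → ℕ) (D : ℕ) : Prop := ∀ (T : Finset (Fin k)) (e g : ℕ),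
  Squarefree e → D * ∏ i ∈ T, M i = e * g ^ 2 → Good15 e ∧ e ≠ 1

/-- the constant `(1 - 1/2) (1 - 1/4) (1 - 1/8) ⋯` -/
noncomputable def c₁ : ℝ := ∏' i : ℕ, (1 - (1 / 2 : ℝ) ^ (i + 1))

theorem zero_of {k : ℕ} {m : Fin k → ℤ} (hm : ∀ i, m i ≠ 0) {a₀ b₀ : ℤ}
    (h0 : 4 * a₀ ^ 3 + 27 * b₀ ^ 2 ≠ 0) {Ok : ℤ → Prop}
    (hOk : ∀ e : ℤ, Squarefree e → Ok e → Pool.Agent.H3.MQ.Q0 (a₀ * e ^ 2) (b₀ * e ^ 3)) {d : ℤ}
    (hd : d ≠ 0)
    (hT : ∀ (T : Finset (Fin k)) (e g : ℤ), Squarefree e → d * ∏ i ∈ T, m i = e * g ^ 2 → Ok e) :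
    ZeroOver m (a₀ * d ^ 2) (b₀ * d ^ 3) := by
  intro n _ L _ _ _ r hr
  obtain ⟨h1, -, h3⟩ := Pool.Agent.H3.MQ.main2 h0 hOk hd (n := n) L hr hm hT
  exact ⟨h1, h3⟩

theorem zero17 {k : ℕ} {m : Fin k → ℤ} (hm : ∀ i, m i ≠ 0) {d : ℤ} (hd : d ≠ 0)
    (hT : ∀ (T : Finset (Fin k)) (e g : ℤ), Squarefree e → d * ∏ i ∈ T, m i = e * g ^ 2 →
      Good17 e) : ZeroOver m (-91 * d ^ 2) (-330 * d ^ 3) :=
  zero_of hm (by norm_num) (Ok := Good17)
    (fun _ he h => Pool.Agent.H3.MQ.q17 he h.1 h.2) hd hT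

/-- **The rank conjecture for one fifth of all quadratic fields, and modulo two for abelian fields.** -/
theorem result :
    -- one fifth of all quadratic fields, real and imaginary, level 17
    (∀ m : ℤ, Squarefree m → m ≠ 1 → Good17 m → ZeroOver (fun _ : Fin 1 => m) (-91) (-330)) ∧
    Tendsto (fun X : ℕ => (numQ Good17 X : ℝ) / (numQ (fun _ => True) X : ℝ)) atTop
      (nhds (c / 2)) ∧
    0.4194 < c ∧ c < 0.4195 ∧
    -- the twists of level 17 over multiquadratic fields
    (∀ (k : ℕ) (m : Fin k → ℤ) (d : ℤ), (∀ i, m i ≠ 0) → d ≠ 0 →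
      (∀ (T : Finset (Fin k)) (e g : ℤ), Squarefree e → d * ∏ i ∈ T, m i = e * g ^ 2 →
        Good17 e) →
      ZeroOver m (-91 * d ^ 2) (-330 * d ^ 3)) ∧
    -- the twists of level 17 over abelian fields, modulo two
    (∀ d : ℤ, Squarefree d → ∀ (n : ℕ) [NeZero n] (L : Type) [Field L] [NumberField L]
      [IsCyclotomicExtension {n} ℚ L] (F : IntermediateField ℚ L),
      (∀ c : ℤ, Squarefree c → (∃ x : F, x ^ 2 = (c : F)) → ∀ e g : ℤ, Squarefree e →
        d * c = e * g ^ 2 → Good17 e) →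
      BothEven (curve F (-91 * d ^ 2) (-330 * d ^ 3))) ∧
    -- in particular over all abelian fields of odd degree
    (∀ d : ℤ, Squarefree d → Good17 d → ∀ (n : ℕ) [NeZero n] (L : Type) [Field L] [NumberField L]
      [IsCyclotomicExtension {n} ℚ L] (F : IntermediateField ℚ L),
      Odd (Module.finrank ℚ F) → BothEven (curve F (-91 * d ^ 2) (-330 * d ^ 3))) ∧
    -- the twists of level 15 over multiquadratic fields
    (∀ (k : ℕ) (M : Fin k → ℕ) (D : ℕ), (∀ i, Cls (M i)) → Cls D → AllGood M D →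
      ZeroOver (fun i => (M i : ℤ)) (-12987 * (D : ℤ) ^ 2) (-263466 * (D : ℤ) ^ 3)) ∧
    (∀ (k : ℕ) (M : Fin k → ℕ), (∀ i, Cls (M i)) →
      (∀ T : Finset (Fin k), T.Nonempty → ¬ IsSquare (∏ i ∈ T, M i)) →
      Tendsto (fun X : ℕ => (((Icc 1 X).filter fun D => Cls D ∧ AllGood M D).card : ℝ) /
        (((Icc 1 X).filter fun D => Cls D).card : ℝ)) atTop (nhds (c₁ ^ 2 ^ k))) ∧
    0.2887 < c₁ ∧ c₁ < 0.2888 ∧
    -- the fields exist
    (∀ (k : ℕ) (m : Fin k → ℤ), (∀ i, m i ≠ 0) → ∀ (n : ℕ) [NeZero n], (∀ i, 8 * m i ∣ (n : ℤ)) →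
      ∀ (L : Type) [Field L] [NumberField L] [IsCyclotomicExtension {n} ℚ L] (i : Fin k),
        ∃ r : L, r ^ 2 = (m i : L)) := by
  refine ⟨?_, Pool.Agent.H3.MQ.quad17, Pool.Agent.Y948.CQ.t_C2.2.2.2.1,
    Pool.Agent.Y948.CQ.t_C2.2.2.2.2, fun k m d hm hd hT => zero17 hm hd hT,
    fun d hd n _ L _ _ _ F h => Pool.Agent.H3.MQ.mod17 hd (n := n) L F h,
    fun d hd hG n _ L _ _ _ F hF => Pool.Agent.H3.MQ.mod17_odd hd hG.1 hG.2 (n := n) L F hF,
    ?_, ?_,
    Pool.Agent.H757_X15.DD.t_LA1.2.2.2.1, Pool.Agent.H757_X15.DD.t_LA1.2.2.2.2,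
    fun k m hm n _ hn L _ _ _ i => Pool.Agent.H3.MQ.roots_exist m hm n hn L i⟩
  · intro m hm h1 hG
    have h := zero17 (m := fun _ : Fin 1 => m) (d := 1) (fun _ => hm.ne_zero) one_ne_zero (by
      intro T e g he heg
      rw [one_mul] at heg
      rcases Finset.eq_empty_or_nonempty T with h | h
      · rw [h, prod_empty] at heg
        have h2 : e ∣ 1 := Dvd.intro _ heg.symm
        have h3 : IsUnit e := isUnit_of_dvd_one h2
        rcases Int.isUnit_iff.1 h3 with h4 | h4
        · rw [h4]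
          exact ⟨Pool.Agent.H3.MQ.rt_one, Pool.Agent.H3.MQ.cri_one⟩
        · exfalso
          rw [h4] at heg
          nlinarith [sq_nonneg g]
      · have hT : T = univ := by
          ext i
          have hi : i = 0 := Subsingleton.elim _ _
          obtain ⟨j, hj⟩ := h
          have hj0 : j = 0 := Subsingleton.elim _ _
          rw [hi]
          rw [hj0] at hj
          simp [hj]
        rw [hT, prod_const, card_univ, Fintype.card_fin, pow_one] at heg
        have h2 : g * g ∣ m := ⟨e, by rw [heg]; ring⟩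
        have h3 : IsUnit g := hm g h2
        have h4 : g ^ 2 = 1 := by
          rcases Int.isUnit_iff.1 h3 with h4 | h4 <;> rw [h4] <;> norm_num
        rw [h4, mul_one] at heg
        rw [← heg]
        exact hG)
    have e1 : (-91 : ℤ) * 1 ^ 2 = -91 := by norm_num
    have e2 : (-330 : ℤ) * 1 ^ 3 = -330 := by norm_num
    rw [e1, e2] at h
    exact h
  · intro k M D hM hD hG
    have hM0 : ∀ i, 0 < M i := fun i => Nat.pos_of_ne_zero (hM i).1.ne_zero
    have hD0 : 0 < D := Nat.pos_of_ne_zero hD.1.ne_zero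
    refine zero_of (fun i => by exact_mod_cast (hM0 i).ne') (by norm_num)
      (Ok := fun e => ∃ D' : ℕ, e = D' ∧ Cls D' ∧ D' ≠ 1 ∧ Good15 D') ?_
      (by exact_mod_cast hD0.ne') ?_
    · rintro e - ⟨D', rfl, h1, h2, h3⟩
      exact Pool.Agent.H3.MQ.q15 h1.1 h1.2 h2 h3
    · intro T e g he heg
      have hP : 0 < ∏ i ∈ T, M i := prod_pos fun i _ => hM0 i
      have hpos : (0 : ℤ) < (D : ℤ) * ∏ i ∈ T, ((M i : ℕ) : ℤ) := by
        rw [← Nat.cast_prod]
        exact_mod_cast Nat.mul_pos hD0 hP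
      have he0 : 0 < e := by
        rw [heg] at hpos
        by_contra h
        have := mul_nonpos_of_nonpos_of_nonneg (not_lt.1 h) (sq_nonneg g)
        omega
      obtain ⟨e', rfl⟩ := Int.eq_ofNat_of_zero_le he0.le
      have heg' : D * ∏ i ∈ T, M i = e' * g.natAbs ^ 2 := by
        have : ((D * ∏ i ∈ T, M i : ℕ) : ℤ) = ((e' * g.natAbs ^ 2 : ℕ) : ℤ) := by
          push_cast
          rw [sq_abs]
          exact heg
        exact_mod_cast this
      have he' : Squarefree e' := Int.squarefree_natCast.1 he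
      obtain ⟨h1, h2⟩ := hG T e' g.natAbs he' heg'
      refine ⟨e', rfl, ⟨he', ?_⟩, h2, h1⟩
      have h3 : Pool.Agent.H757_X15.DD.Fm (e' * g.natAbs ^ 2) := by
        rw [← heg']
        exact Pool.Agent.H3.MQ.cls_mul_dec hD.2 (Pool.Agent.H3.MQ.fm_prod M (fun i => (hM i).2) T)
      exact Pool.Agent.H3.MQ.cls_part h3
  · intro k M hM hI
    refine (Pool.Agent.H3.MQ.prop15 M hM hI).congr fun X => ?_
    congr 2
    · congr 1
      ext D
      rw [mem_filter, mem_filter]
      exact Iff.rfl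
    · congr 1
      ext D
      rw [mem_filter, mem_filter]
      exact Iff.rfl

end Pool.Agent.Results.MP_ae0bd0_nt.QuadraticFieldsConductor17
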