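import Pool.Agent.H4.AV.Res

/-!
# The average order of the 2-Selmer group of the quadratic twists of `y ^ 2 = f(x) - t`

Let `k` be a finite field of odd order `q` (the characteristic may be three), `K = k(t)`, `f` a monic
cubic polynomial over `k` with `f' ≠ 0`, and `u ≠ 0` in `k`. For a polynomial `D` let `E_D` be the
elliptic curve `u D(t) y ^ 2 = f(x) - t` over `K`. Let `Fam f n` be the set of all monic squarefree
polynomials `D` of degree `n` which are prime to the discriminant of `f(X) - t`; for `n ≥ 4` it has at
least `(2 / 9) q ^ n` elements. Let `numOne f D` be the number of the primes `P` dividing `D` for which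
`f(X) = t` has exactly one root modulo `P`. For every `ε > 0` there is an `n0`, which depends on `ε`
only, such that for all `k`, `f`, `u` and all `n ≥ n0` the following is true.

* The Selmer groups at two are finite; `E_D(K) / 2 E_D(K)` has at most `|Sel_2(E_D)|` elements, and
  `2 ^ r ≤ |Sel_2(E_D)|` for the rank `r` of `E_D(K)`, if this group is finitely generated (it is, by
  the theorem of Lang and Neron).
* The mean value of `|Sel_2(E_D)|` over `Fam f n` is at most `3 + ε`; the sums over the `D` with even,
  and with odd, `numOne f D` are at most three times the number of these `D` plus `ε` times the number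
  of all `D`.
* For at least one third of the `D` with even `numOne f D` (up to `ε` times the number of all `D`)
  the groups `Sel_2(E_D)`, `E_D(K) / 2 E_D(K)` and the 2-primary part of the group of Tate and
  Shafarevich are zero. For at least five sixths of the `D` with odd `numOne f D` the group
  `Sel_2(E_D)` has at most two elements.
* If `a ^ 2 ≠ 3 b` for `f = x ^ 3 + a x ^ 2 + b x + c`, then one half of the `D` have even `numOne f D`;
  the groups are zero for the proportion `1 / 6 - ε`, and `Sel_2(E_D)` has at most two elements for the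
  proportion `7 / 12 - ε`, of all `D`.
* If the discriminant `dlt f` of the quadratic polynomial `(f(X) - f(x)) / (X - x)` is a square in
  `k[x]` (so that `k(x)` is a Galois extension of `k(t)`, `t = f(x)`), then the groups are zero for the
  proportion `1 / 3 - ε` of all `D`.

If the 2-primary part of the group of Tate and Shafarevich of `E_D` is zero, then the order of vanishing
of `L(E_D, s)` at `s = 1` is equal to the rank of `E_D(K)`, by the theorem of Tate.
-/

set_option autoImplicit false
set_option linter.all false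

open Polynomial
open scoped Classical

namespace Pool.Agent.Results.MP_ae0bd0_nt.TwistAverages

open Pool.Agent.H4.SA (dsc dlt Cub)
open Pool.Agent.H4.SL (tw SelTwo ModTwo)
open Pool.Agent.H4.AV
open Pool.Agent.TH115.GD (Pt ShaTwo)

/-- The Selmer group is finite, and it bounds the Mordell-Weil group modulo two and the rank. -/
def Bounds (K : Type) {k : Type} [Field k] [Field K] [Algebra k[X] K] [IsFractionRing k[X] K]
    (f : k[X]) (u : k) (D : k[X]) : Prop :=
  Finite (SelTwo k (tw K f (C u * D))) ∧ 1 ≤ sel K f u D ∧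
    Finite (ModTwo (tw K f (C u * D))) ∧ Nat.card (ModTwo (tw K f (C u * D))) ≤ sel K f u D ∧
    (Module.Finite ℤ (Pt (tw K f (C u * D)) K) →
      2 ^ Module.finrank ℤ (Pt (tw K f (C u * D)) K) ≤ sel K f u D)

/-- The sum of the orders of the Selmer groups over a set `A` of polynomials. -/
noncomputable def total (K : Type) {k : Type} [Field k] [Field K] [Algebra k[X] K]
    [IsFractionRing k[X] K] (f : k[X]) (u : k) (A : Set k[X]) : ℝ := ∑ᶠ D ∈ A, (sel K f u D : ℝ)

/-- The number of the members of the family with trivial groups. -/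
noncomputable def numTriv (K : Type) {k : Type} [Field k] [Field K] [Algebra k[X] K]
    [IsFractionRing k[X] K] (f : k[X]) (u : k) (n : ℕ) : ℝ :=
  ({D | D ∈ Fam f n ∧ Triv K f u D} : Set k[X]).ncard

/-- The number of the elements of `A` for which the Selmer group has at most two elements. -/
noncomputable def numTwo (K : Type) {k : Type} [Field k] [Field K] [Algebra k[X] K]
    [IsFractionRing k[X] K] (f : k[X]) (u : k) (A : Set k[X]) : ℝ :=
  ({D | D ∈ A ∧ sel K f u D ≤ 2} : Set k[X]).ncard

/-- The numbers of the members of the family, of the even members and of the odd members. -/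
noncomputable def nF {k : Type} [Field k] (f : k[X]) (n : ℕ) : ℝ := (Fam f n).ncard

noncomputable def nE {k : Type} [Field k] (f : k[X]) (n : ℕ) : ℝ := (FamEven f n).ncard

noncomputable def nO {k : Type} [Field k] (f : k[X]) (n : ℕ) : ℝ := (FamOdd f n).ncard

/-- The mean values. -/
def Means (ε : ℝ) (K : Type) {k : Type} [Field k] [Field K] [Algebra k[X] K]
    [IsFractionRing k[X] K] (f : k[X]) (u : k) (n : ℕ) : Prop :=
  total K f u (Fam f n) ≤ (3 + ε) * nF f n ∧
    total K f u (FamEven f n) ≤ 3 * nE f n + ε * nF f n ∧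
    total K f u (FamOdd f n) ≤ 3 * nO f n + ε * nF f n

/-- The members with small Selmer groups. -/
def Small (ε : ℝ) (K : Type) {k : Type} [Field k] [Field K] [Algebra k[X] K]
    [IsFractionRing k[X] K] (f : k[X]) (u : k) (n : ℕ) : Prop :=
  (1 / 3 * nE f n - ε * nF f n ≤ numTriv K f u n ∧
    5 / 6 * nO f n - ε * nF f n ≤ numTwo K f u (FamOdd f n)) ∧
  (f.coeff 2 ^ 2 ≠ 3 * f.coeff 1 → |nE f n - 1 / 2 * nF f n| ≤ ε * nF f n ∧
    (1 / 6 - ε) * nF f n ≤ numTriv K f u n ∧ (7 / 12 - ε) * nF f n ≤ numTwo K f u (Fam f n)) ∧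
  ((∃ g, dlt f = g ^ 2) → (1 / 3 - ε) * nF f n ≤ numTriv K f u n)

theorem result (ε : ℝ) (hε : 0 < ε) : ∃ n0 : ℕ, ∀ (k K : Type) [Field k] [Fintype k] [Field K]
    [Algebra k[X] K] [IsFractionRing k[X] K] (f : k[X]) (u : k),
    (2 : k) ≠ 0 → f.Monic → f.natDegree = 3 → derivative f ≠ 0 → u ≠ 0 → ∀ n, n0 ≤ n →
      2 / 9 * (Fintype.card k : ℝ) ^ n ≤ nF f n ∧ (∀ D ∈ Fam f n, Bounds K f u D) ∧
      Means ε K f u n ∧ Small ε K f u n := by
  obtain ⟨n0, h0⟩ := averages ε hε
  refine ⟨max n0 4, fun k K _ _ _ _ _ f u h2 hm hd hder hu n hn => ?_⟩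
  have hf : Cub f := ⟨h2, hm, hd, hder⟩
  obtain ⟨g1, g2, g3, g4⟩ := h0 k K f u hf hu n ((le_max_left _ _).trans hn)
  refine ⟨card_Fam_ge hf ((le_max_right _ _).trans hn), fun D hD => ?_, g1, g2, g3, g4⟩
  obtain ⟨h1, h3, -⟩ := sel_le (K := K) hf hu hD
  obtain ⟨h5, h6⟩ := mw_le (K := K) hf hu hD
  exact ⟨h1, h3, h5, h6, fun hfin => rank_le hf hu hD hfin⟩

end Pool.Agent.Results.MP_ae0bd0_nt.TwistAverages
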